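import Pool.Agent.Q130.SF.Crit
import Pool.Agent.Q130.SF.Nd2

/-!
# MP_bf98aa_gt, Q1: closed forms which are limits of nondegenerate forms

Q1 asks whether every nondegenerate form `τ` on a closed manifold `X` of dimension at least six is
homotopic through nondegenerate forms to a symplectic form in a given class.  The theorem gives a
positive answer for the pairs which arise as follows, without almost complex structures.

Let `σ` be a closed form representing the class, with the set `K` of degenerate points, and let `θ`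
be any smooth two-form, not necessarily closed, such that for small `ε > 0` the form `σ + ε θ` is
nondegenerate near `K`, at a linear rate: in charts, every vector `v` has a vector `w` of length at
most one with `(σ + ε θ)(v, w) ≥ c ε |v|`.  Suppose that on every component `C` of `K` the form `θ`
is a finite sum of forms `c da ∧ db` such that `(a, b)` maps the part of `C` in the support of `c`
onto a Lebesgue null set of the plane.  Then for every neighbourhood `W` of `K` there is an exact
form `dα`, `α` supported in `W`, such that for all small `ε > 0` the form `σ + ε dα` is symplectic,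
and the segment from `σ + ε θ` to it consists of nondegenerate forms.
-/

set_option autoImplicit false

open Set MeasureTheory Topology
open scoped Manifold ContDiff

noncomputable section

namespace Pool.Agent.Results.MP_bf98aa_gt.NondegenerateLimits

open Pool.Agent.Y501.SYP

/-- the points at which `σ` is degenerate -/
def Degenerate {d : ℕ} {X : Type} [TopologicalSpace X] [ChartedSpace (ES d) X]
    (σ : Form (ES d) X 2) : Set X :=
  {x | ∃ v : TangentSpace 𝓘(ℝ, ES d) x, v ≠ 0 ∧ ∀ w, σ x ![v, w] = 0}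

/-- near `x` the forms `σ + ε θ`, `0 < ε ≤ c`, are nondegenerate at a linear rate: in the chart at
`x`, every vector `v` has a vector `w` of length at most one with `(σ + ε θ)(v, w) ≥ c ε |v|` -/
def LinearRate {d : ℕ} {X : Type} [TopologicalSpace X] [ChartedSpace (ES d) X]
    (σ θ : Form (ES d) X 2) (x : X) : Prop :=
  ∃ c : ℝ, 0 < c ∧ ∀ᶠ p in 𝓝 (chartAt (ES d) x x), ∀ ε : ℝ, 0 < ε → ε ≤ c → ∀ v : ES d,
    ∃ w : ES d, ‖w‖ ≤ 1 ∧ c * ε * ‖v‖ ≤ pb (chartAt (ES d) x).symm σ p ![v, w] +
      ε * pb (chartAt (ES d) x).symm θ p ![v, w]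

/-- on `C` the form `θ` is a finite sum of forms `c da ∧ db` with smooth functions such that
`(a, b)` maps the part of `C` in the support of `c` onto a Lebesgue null set of the plane -/
def NullSum {d : ℕ} {X : Type} [TopologicalSpace X] [ChartedSpace (ES d) X]
    (θ : Form (ES d) X 2) (C : Set X) : Prop :=
  ∃ (n : ℕ) (c a b : Fin n → X → ℝ), (∀ i, SmoothFun (V := ES d) (c i)) ∧
    (∀ i, SmoothFun (V := ES d) (a i)) ∧ (∀ i, SmoothFun (V := ES d) (b i)) ∧
    (∀ i, volume ((fun x => (a i x, b i x)) '' (C ∩ tsupport (c i))) = 0) ∧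
    ∀ x ∈ C, ∀ v w : TangentSpace 𝓘(ℝ, ES d) x, θ x ![v, w] =
      ∑ i, c i x * (dd (a i) x v * dd (b i) x w - dd (a i) x w * dd (b i) x v)

attribute [local instance] cs mf

/-- If the closed form `σ` is the limit of nondegenerate forms `σ + ε θ` at a linear rate, and `θ`
is a null sum on the components of the set of degenerate points of `σ`, then for small `ε` the form
`σ + ε θ` is homotopic through nondegenerate forms to a symplectic form in the class of `σ`. -/
theorem result (d : ℕ) (X : Type) [TopologicalSpace X] [ChartedSpace (ES d) X]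
    [IsManifold 𝓘(ℝ, ES d) ∞ X] [CompactSpace X] [T2Space X]
    (σ θ : Form (ES d) X 2) (hσ : IsSmooth σ) (hσc : IsClosedForm σ) (hθ : IsSmooth θ)
    (hR : ∀ x ∈ Degenerate σ, LinearRate σ θ x)
    (hN : ∀ z ∈ Degenerate σ, NullSum θ (connectedComponentIn (Degenerate σ) z))
    (W : Set X) (hW : IsOpen W) (hKW : Degenerate σ ⊆ W) :
    ∃ (α : Form (ES d) X 1) (η : Form (ES d) X 2), IsSmooth α ∧ IsSmooth η ∧ IsD α η ∧
      (∀ x, x ∉ W → α x = 0 ∧ η x = 0) ∧
      ∃ ε₀ : ℝ, 0 < ε₀ ∧ ∀ ε : ℝ, 0 < ε → ε ≤ ε₀ →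
        (IsSmooth (comb σ ε η) ∧ IsClosedForm (comb σ ε η) ∧ NondegForm (comb σ ε η)) ∧
        ∀ s : ℝ, 0 ≤ s → s ≤ 1 → NondegForm (segment (comb σ ε θ) (comb σ ε η) s) := by
  classical
  have hDeg : Degenerate σ = {x | ¬ Pool.Agent.Q130.SF.nd (d := d) (X := X) σ x} := by
    ext x
    constructor
    · rintro ⟨v, hv, h⟩ h1
      exact hv (h1 v h)
    · intro h
      by_contra h1
      apply h
      intro v hv
      by_contra h2
      exact h1 ⟨v, h2, hv⟩
  have hmem : ∀ x, ¬ Pool.Agent.Q130.SF.nd (d := d) (X := X) σ x → x ∈ Degenerate σ := by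
    intro x hx
    rw [hDeg]
    exact hx
  have key : ∃ (α : Form (ES d) X 1) (η : Form (ES d) X 2), IsSmooth α ∧ IsSmooth η ∧
      IsD α η ∧ IsClosedForm η ∧ (∀ x, x ∉ W → α x = 0 ∧ η x = 0) ∧
      ∃ ε₀ : ℝ, 0 < ε₀ ∧ ∀ ε : ℝ, 0 < ε → ε ≤ ε₀ → ∀ s : ℝ, 0 ≤ s → s ≤ 1 →
        ∀ x, Pool.Agent.Q130.SF.nd (d := d) (X := X)
          (Pool.Agent.Q130.SF.mix (d := d) (X := X) σ θ η ε s) x := by
    obtain ⟨α', η, b1, b2, b3, b4, b5, b6⟩ := Pool.Agent.Q130.SF.ndThm (d := d) (X := X)
      Pool.Agent.Y484.SY.t_GEN Pool.Agent.Y925.SY.t_PLANAR (σ := σ) (θ := θ)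
      ((smooth_iff σ).1 hσ) ((smooth_iff θ).1 hθ) (fun x hx => hR x (hmem x hx))
      (fun z hz => by
        have h1 := hN z (hmem z hz)
        rw [hDeg] at h1
        exact h1) (W := W) hW (fun x hx => hKW (hmem x hx))
    exact ⟨α', η, (smooth_iff α').2 b1, (smooth_iff η).2 b2, (isD_iff α' η).2 b3,
      (closed_iff η).2 b4, b5, b6⟩
  obtain ⟨α, η, b1, b2, b3, b4, b5, ε₀, hε₀, b6⟩ := key
  refine ⟨α, η, b1, b2, b3, b5, ε₀, hε₀, fun ε h0 h1 => ?_⟩
  have hcomb : (comb σ ε η : Form (ES d) X 2) = (1 : ℝ) • σ + ε • η := by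
    funext x
    show σ x + ε • η x = (1 : ℝ) • σ x + ε • η x
    rw [one_smul]
  have hseg : ∀ s : ℝ, (segment (comb σ ε θ) (comb σ ε η) s : Form (ES d) X 2) =
      Pool.Agent.Q130.SF.mix (d := d) (X := X) σ θ η ε s := by
    intro s
    funext x
    show (1 - s) • (σ x + ε • θ x) + s • (σ x + ε • η x) =
      σ x + ε • ((1 - s) • θ x + s • η x)
    rw [smul_add, smul_add, smul_add, smul_smul, smul_smul, smul_smul, smul_smul,
      mul_comm ε (1 - s), mul_comm ε s]
    have h2 : (1 - s) • σ x + s • σ x = σ x := by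
      rw [← add_smul, sub_add_cancel, one_smul]
    calc (1 - s) • σ x + ((1 - s) * ε) • θ x + (s • σ x + (s * ε) • η x) =
        ((1 - s) • σ x + s • σ x) + (((1 - s) * ε) • θ x + (s * ε) • η x) := by abel
      _ = _ := by rw [h2]
  have hnd : ∀ s : ℝ, 0 ≤ s → s ≤ 1 → NondegForm (segment (comb σ ε θ) (comb σ ε η) s) := by
    intro s h2 h3
    rw [hseg s]
    exact fun x v hv => b6 ε h0 h1 s h2 h3 x v hv
  refine ⟨⟨?_, ?_, ?_⟩, hnd⟩
  · rw [hcomb]
    exact Pool.Agent.Q130.SF.smooth_lin hσ b2 1 ε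
  · rw [hcomb]
    exact Pool.Agent.Q130.SF.closed_lin hσ b2 hσc b4 1 ε
  · have h2 := hnd 1 zero_le_one le_rfl
    have h3 : (segment (comb σ ε θ) (comb σ ε η) 1 : Form (ES d) X 2) = comb σ ε η := by
      funext x
      show (1 - (1 : ℝ)) • (comb σ ε θ x) + (1 : ℝ) • (comb σ ε η x) = comb σ ε η x
      rw [sub_self, zero_smul, zero_add, one_smul]
    rw [h3] at h2
    exact h2

end Pool.Agent.Results.MP_bf98aa_gt.NondegenerateLimits
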