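import Pool.Agent.Q130.SF.Crit
import Pool.Agent.Q130.SF.Rel

/-!
# MP_bf98aa_gt, Q1: the relative problem for symplectic forms on closed manifolds

Q1 asks whether every nondegenerate form `τ` on a closed manifold `X` of dimension at least six is
homotopic through nondegenerate forms to a symplectic form in a given class.  The relative problem
is to do this without changing `τ` near a closed subset `A`, where `τ` is already closed.  For open
manifolds this is part of Gromov's h-principle.  The theorem describes when it is possible on closed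
manifolds, with parameters.

A closed form `ζ` *weakly tames* an almost complex structure `J` if `ζ(v, J v) ≥ 0` for all vectors
`v`, there is a smooth map `f` to a Euclidean space with `df(v) = 0` whenever `ζ(v, J v) = 0`, and
in each fibre of `f` the set of points where `ζ` does not tame `J` has small components.

Let `σ` be a closed form, let `P` be a compact Hausdorff space and `Q ⊆ P` a closed neighbourhood
retract, for instance `(D^k, S^{k-1})`, or a point and the empty set.  Let `τ_p`, `p ∈ P`, be a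
family of nondegenerate forms equal to `σ` near `A`, such that for `q ∈ Q` the form `τ_q` is
symplectic and `τ_q - σ` is exact relative to a neighbourhood of `A`.  The family `τ` is homotopic
through nondegenerate forms, relative to `Q` and to a neighbourhood of `A`, to a family of
symplectic forms which are cohomologous to `σ` relative to a neighbourhood of `A`, if and only if
there is a family `J_{p,t}` of almost complex structures, tamed by `σ` near `A`, such that `τ_p`
tames `J_{p,0}`, `τ_q` tames all `J_{q,t}`, and for every `p ∉ Q` some closed form cohomologous to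
`σ` relative to a neighbourhood of `A` weakly tames `J_{p,1}`.
-/

set_option autoImplicit false

open Set MeasureTheory
open scoped Manifold ContDiff

noncomputable section

namespace Pool.Agent.Results.MP_bf98aa_gt.RelativeCriterion

open Pool.Agent.Y501.SYP

section defs

variable {V : Type} [NormedAddCommGroup V] [NormedSpace ℝ V] {X : Type} [TopologicalSpace X]
  [ChartedSpace V X] {P : Type} [TopologicalSpace P]

/-- `ζ` is smooth and closed, and `ζ = σ + dα` for a smooth one-form `α` such that `α` and `dα`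
vanish on `U` -/
def CohomologousRel (U : Set X) (ζ σ : Form V X 2) : Prop :=
  IsSmooth ζ ∧ IsClosedForm ζ ∧ ∃ (α : Form V X 1) (ρ : Form V X 2), IsSmooth α ∧ IsSmooth ρ ∧
    IsD α ρ ∧ ζ = addF σ ρ ∧ ∀ x ∈ U, α x = 0 ∧ ρ x = 0

/-- `Ω_p`, `p ∈ P`, is a family of nondegenerate smooth two-forms, continuous in the `C^∞`
topology, which are equal to `σ` on `U` -/
def NondegenerateFamily (U : Set X) (σ : Form V X 2) (Ω : P → Form V X 2) : Prop :=
  (∀ (W : Set V) (φ : V → X), SmoothParam W φ → ∀ j : ℕ,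
    ContinuousOn (fun q : P × V => iteratedFDeriv ℝ j (pb φ (Ω q.1)) q.2) (univ ×ˢ W)) ∧
  ∀ p, IsSmooth (Ω p) ∧ NondegForm (Ω p) ∧ ∀ x ∈ U, Ω p x = σ x

/-- `J_p`, `p ∈ P`, is a continuous family of almost complex structures -/
structure ContinuousACS (J : P → End V X) : Prop where
  sq : ∀ (p : P) (x : X) (v : TangentSpace 𝓘(ℝ, V) x), J p x (J p x v) = -v
  cont : ∀ (x₀ : X) (v : V),
    ContinuousOn (fun q : P × V => inChart (J q.1) x₀ q.2 v) (univ ×ˢ (chartAt V x₀).target)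

/-- `Q` is a retract of a neighbourhood -/
def NbhdRetract (Q : Set P) : Prop :=
  ∃ (N : Set P) (r : P → P), IsOpen N ∧ Q ⊆ N ∧ ContinuousOn r N ∧ (∀ p ∈ N, r p ∈ Q) ∧
    ∀ q ∈ Q, r q = q

end defs

/-- The form `ζ` is nonnegative on the `J`-complex lines, some smooth map `f` to a Euclidean space
annihilates the vectors `v` with `ζ(v, J v) = 0`, and in the fibres of `f` the set of points at
which `ζ` does not tame `J` has small components. -/
def WeaklyTames {d : ℕ} {X : Type} [TopologicalSpace X] [ChartedSpace (ES d) X]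
    (ζ : Form (ES d) X 2) (J : End (ES d) X) : Prop :=
  (∀ (x : X) (v : TangentSpace 𝓘(ℝ, ES d) x), 0 ≤ qd ζ J x v) ∧
  ∃ (m : ℕ) (f : X → ES m), ContMDiff 𝓘(ℝ, ES d) 𝓘(ℝ, ES m) ∞ f ∧
    (∀ (x : X) (v : TangentSpace 𝓘(ℝ, ES d) x), qd ζ J x v = 0 →
      mfderiv 𝓘(ℝ, ES d) 𝓘(ℝ, ES m) f x v = 0) ∧
    ∀ z : X, ¬ TamesAt ζ J z →
      SmallAt J (connectedComponentIn ({x | ¬ TamesAt ζ J x} ∩ f ⁻¹' {f z}) z) z
        (fun v => qd ζ J z v = 0)

attribute [local instance] cs mf

theorem thin_of {d : ℕ} {X : Type} [TopologicalSpace X] [ChartedSpace (ES d) X]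
    [IsManifold 𝓘(ℝ, ES d) ∞ X] [T2Space X] {J : End (ES d) X} (hJ : IsAlmostComplex J)
    {ζ : Form (ES d) X 2} {C : Set X} {z : X}
    (hpos : ∀ v : TangentSpace 𝓘(ℝ, ES d) z, 0 ≤ qd ζ J z v)
    (h : SmallAt J C z (fun v => qd ζ J z v = 0)) :
    Pool.Agent.Y501.SY.ThinAt (d := d) (X := X) ζ J C z := by
  refine Pool.Agent.Y501.SY.SmallAt.thinAt (ac_of J hJ) ?_
  rcases h with h | h | h
  · exact Or.inl h
  · exact Or.inr (Or.inl h)
  · refine Or.inr (Or.inr ?_)
    obtain ⟨n, a, b, hab, hp⟩ := h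
    choose N hN hN0 using fun i => (hab i).null
    refine ⟨n, a, b, ⋂ i, N i, Filter.iInter_mem.2 hN, fun i => (hab i).smooth_a,
      fun i => (hab i).smooth_b, fun i => ?_, fun v hv h1 => ?_⟩
    · exact measure_mono_null (image_mono (inter_subset_inter_right _ (iInter_subset _ _)))
        (hN0 i)
    · have h3 := hp v hv (le_antisymm h1 (hpos v))
      have e := Pool.Agent.Y501.SY.sum_apply2 (d := d) (X := X) Finset.univ
        (fun i => Pool.Agent.Y501.SY.dfdg (d := d) (X := X) (a i) (b i)) z ![v, J z v]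
      refine lt_of_lt_of_eq h3 (Eq.trans ?_ e.symm)
      exact Finset.sum_congr rfl fun i _ =>
        (Pool.Agent.Y501.SY.dfdg_apply (d := d) (X := X) (a i) (b i) z v (J z v)).symm

/-- a taming form weakly tames -/
theorem weaklyTames_of {d : ℕ} {X : Type} [TopologicalSpace X] [ChartedSpace (ES d) X]
    {ζ : Form (ES d) X 2} {J : End (ES d) X} (ht : ∀ x, TamesAt ζ J x) : WeaklyTames ζ J := by
  refine ⟨fun x v => ?_, 0, fun _ => 0, contMDiff_const, fun x v _ => ?_,
    fun z hz => absurd (ht z) hz⟩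
  · rcases eq_or_ne v 0 with rfl | hv
    · have h5 : qd ζ J x 0 = 0 := by
        have h6 := Pool.Agent.Q130.SF.alt2_smul (d := d) (ζ x) 0 0 (J x 0)
        rw [zero_smul, zero_mul] at h6
        exact h6
      exact h5.ge
    · exact (ht x v hv).le
  · rw [mfderiv_const]
    rfl

/-- the relative class is convex -/
theorem convex_rel {d : ℕ} {X : Type} [TopologicalSpace X] [ChartedSpace (ES d) X] (U : Set X)
    (σ : Form (ES d) X 2) :
    Convex ℝ {w : Form (ES d) X 2 | CohomologousRel U w σ} := by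
  rintro w ⟨s1, c1, α, ρ, a1, a2, a3, rfl, a4⟩ w' ⟨s2, c2, α', ρ', b1, b2, b3, rfl, b4⟩ a b ha hb
    hab
  refine ⟨Pool.Agent.Q130.SF.smooth_lin s1 s2 a b, Pool.Agent.Q130.SF.closed_lin s1 s2 c1 c2 a b,
    a • α + b • α', a • ρ + b • ρ', Pool.Agent.Q130.SF.smooth_lin a1 b1 a b,
    Pool.Agent.Q130.SF.smooth_lin a2 b2 a b, Pool.Agent.Q130.SF.isD_lin a1 b1 a3 b3 a b, ?_,
    fun x hx => ?_⟩
  · funext x
    show a • (σ x + ρ x) + b • (σ x + ρ' x) = σ x + (a • ρ x + b • ρ' x)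
    have h1 : a • σ x + b • σ x = σ x := by rw [← add_smul, hab, one_smul]
    calc a • (σ x + ρ x) + b • (σ x + ρ' x) = (a • σ x + b • σ x) + (a • ρ x + b • ρ' x) := by
          rw [smul_add, smul_add]
          abel
      _ = _ := by rw [h1]
  · constructor
    · show a • α x + b • α' x = 0
      rw [(a4 x hx).1, (b4 x hx).1, smul_zero, smul_zero, add_zero]
    · show a • ρ x + b • ρ' x = 0
      rw [(a4 x hx).2, (b4 x hx).2, smul_zero, smul_zero, add_zero]

theorem cfam_iff {d : ℕ} {X : Type} [TopologicalSpace X] [ChartedSpace (ES d) X] {P : Type}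
    [TopologicalSpace P] (Ω : P → Form (ES d) X 2) :
    (∀ (W : Set (ES d)) (φ : ES d → X), SmoothParam W φ → ∀ j : ℕ,
      ContinuousOn (fun q : P × ES d => iteratedFDeriv ℝ j (pb φ (Ω q.1)) q.2) (univ ×ˢ W)) ↔
      Pool.Agent.Q130.SF.CFam (d := d) (X := X) univ Ω :=
  ⟨fun h U φ hU hφ => h U φ ⟨hU, hφ⟩, fun h U φ hφ => h U φ hφ.1 hφ.2⟩

/-- weakly taming forms can be corrected away from a closed set near which they tame -/
theorem single {d : ℕ} {X : Type} [TopologicalSpace X] [ChartedSpace (ES d) X]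
    [IsManifold 𝓘(ℝ, ES d) ∞ X] [CompactSpace X] [T2Space X] {J : End (ES d) X}
    (hJ : IsAlmostComplex J) {σ ζ : Form (ES d) X 2} {L U : Set X} (hL : IsClosed L)
    (hLU : L ⊆ U) (hσt : ∀ x ∈ U, TamesAt σ J x) (hζ : CohomologousRel U ζ σ)
    (hw : WeaklyTames ζ J) :
    ∃ w : Form (ES d) X 2, CohomologousRel L w σ ∧ ∀ x, TamesAt w J x := by
  obtain ⟨s1, s2, α, ρ, a1, a2, a3, a4, a5⟩ := hζ
  obtain ⟨hpos, m, f, hf, hker, hsm⟩ := hw
  have hζσ : ∀ x ∈ U, ζ x = σ x := by
    intro x hx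
    rw [a4]
    show σ x + ρ x = σ x
    rw [(a5 x hx).2, add_zero]
  have hD : ∀ x, ¬ TamesAt ζ J x → x ∈ Lᶜ := by
    intro x hx hxL
    apply hx
    intro v hv
    have h1 := hσt x (hLU hxL) v hv
    show 0 < ζ x ![v, J x v]
    rw [hζσ x (hLU hxL)]
    exact h1
  have key : ∃ (α' : Form (ES d) X 1) (η : Form (ES d) X 2), IsSmooth α' ∧ IsSmooth η ∧
      IsD α' η ∧ IsClosedForm η ∧ (∀ x, x ∉ Lᶜ → α' x = 0 ∧ η x = 0) ∧
      ∃ ε₀ : ℝ, 0 < ε₀ ∧ ∀ ε : ℝ, 0 < ε → ε ≤ ε₀ → ∀ x, TamesAt (ζ + ε • η) J x := by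
    obtain ⟨α', η, b1, b2, b3, b4, b5, b6⟩ := Pool.Agent.Q130.SF.relThm (d := d) (X := X)
      Pool.Agent.Y484.SY.t_GEN Pool.Agent.Y455.SY.t_PERT Pool.Agent.Y455.SY.t_NULL
      Pool.Agent.Y925.SY.t_PLANAR (m := m) (Y := ES m) (J := J) (ac_of J hJ) (f := f) hf (σ := ζ)
      ((smooth_iff ζ).1 s1) hpos hker (fun z hz => thin_of hJ (hpos z) (hsm z hz))
      (W := Lᶜ) hL.isOpen_compl hD
    exact ⟨α', η, (smooth_iff α').2 b1, (smooth_iff η).2 b2, (isD_iff α' η).2 b3,
      (closed_iff η).2 b4, b5, b6⟩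
  obtain ⟨α', η, b1', b2', b3', b4', b5, ε, hε, b6⟩ := key
  have e1 : ((1 : ℝ) • ζ + ε • η : Form (ES d) X 2) = ζ + ε • η := by rw [one_smul]
  have g1 := Pool.Agent.Q130.SF.smooth_lin s1 b2' 1 ε
  have g2 := Pool.Agent.Q130.SF.closed_lin s1 b2' s2 b4' 1 ε
  rw [e1] at g1 g2
  refine ⟨ζ + ε • η, ⟨g1, g2, (1 : ℝ) • α + ε • α', (1 : ℝ) • ρ + ε • η,
    Pool.Agent.Q130.SF.smooth_lin a1 b1' 1 ε, Pool.Agent.Q130.SF.smooth_lin a2 b2' 1 ε,
    Pool.Agent.Q130.SF.isD_lin a1 b1' a3 b3' 1 ε, ?_, fun x hx => ?_⟩, fun x => b6 ε hε le_rfl x⟩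
  · funext x
    rw [a4]
    show (σ x + ρ x) + ε • η x = σ x + ((1 : ℝ) • ρ x + ε • η x)
    rw [one_smul, add_assoc]
  · have h1 := b5 x (fun h => h hx)
    have h2 := a5 x (hLU hx)
    constructor
    · show (1 : ℝ) • α x + ε • α' x = 0
      rw [h1.1, h2.1, smul_zero, smul_zero, add_zero]
    · show (1 : ℝ) • ρ x + ε • η x = 0
      rw [h1.2, h2.2, smul_zero, smul_zero, add_zero]

/-- A family of nondegenerate forms equal to `σ` near `A` is homotopic, relative to `Q` and to a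
neighbourhood of `A` and through nondegenerate forms, to a family of symplectic forms cohomologous
to `σ` relative to a neighbourhood of `A`, if and only if there is a homotopy of almost complex
structures, tamed by `σ` near `A`, from a family tamed by it to one weakly tamed by forms in the
relative class of `σ`. -/
theorem result (d : ℕ) (X : Type) [TopologicalSpace X] [ChartedSpace (ES d) X]
    [IsManifold 𝓘(ℝ, ES d) ∞ X] [CompactSpace X] [T2Space X]
    (P : Type) [TopologicalSpace P] [CompactSpace P] [T2Space P]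
    (Q : Set P) (hQ : IsClosed Q) (hr : NbhdRetract Q) (A : Set X) (hA : IsClosed A)
    (σ : Form (ES d) X 2) (hσ : IsSmooth σ) (τ : P → Form (ES d) X 2)
    (hτ : ∃ U, IsOpen U ∧ A ⊆ U ∧ NondegenerateFamily U σ τ ∧
      ∀ q ∈ Q, CohomologousRel U (τ q) σ) :
    (∃ (T : P × unitInterval → Form (ES d) X 2) (U : Set X), IsOpen U ∧ A ⊆ U ∧
        NondegenerateFamily U σ T ∧ (∀ p, T (p, 0) = τ p) ∧ (∀ q ∈ Q, ∀ t, T (q, t) = τ q) ∧
        ∀ p, CohomologousRel U (T (p, 1)) σ) ↔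
      ∃ (J : P × unitInterval → End (ES d) X) (U : Set X), IsOpen U ∧ A ⊆ U ∧ ContinuousACS J ∧
        (∀ z, ∀ x ∈ U, TamesAt σ (J z) x) ∧ (∀ p x, TamesAt (τ p) (J (p, 0)) x) ∧
        (∀ q ∈ Q, ∀ t x, TamesAt (τ q) (J (q, t)) x) ∧
        ∀ p, p ∉ Q → ∃ ζ, CohomologousRel U ζ σ ∧ WeaklyTames ζ (J (p, 1)) := by
  classical
  have hac : ∀ J : P × unitInterval → End (ES d) X, ContinuousACS J →
      ∀ p, IsAlmostComplex (J p) := by
    intro J hJ p
    refine ⟨hJ.sq p, fun x₀ v => ?_⟩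
    have h1 := hJ.cont x₀ v
    have h2 : ContinuousOn (fun u : ES d => (p, u)) (chartAt (ES d) x₀).target := by fun_prop
    exact h1.comp h2 fun u hu => ⟨mem_univ _, hu⟩
  constructor
  · rintro ⟨T, U, hU, hAU, ⟨hT, hs⟩, h0, hq, hc⟩
    obtain ⟨J, j1, j2, j3⟩ := Pool.Agent.Q130.SF.exists_J (d := d) (X := X)
      (P := P × unitInterval) (Ω := T) ((cfam_iff T).1 hT) (fun z x v hv => (hs z).2.1 x v hv)
    have hJ : ContinuousACS (V := ES d) (X := X) J := by
      refine ⟨j1, fun x₀ v => ?_⟩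
      have h1 := j2 x₀
      rw [continuousOn_clm_apply] at h1
      exact h1 v
    refine ⟨J, U, hU, hAU, hJ, fun z x hx v hv => ?_, fun p x => ?_, fun q hqQ t x => ?_,
      fun p _ => ⟨T (p, 1), hc p, weaklyTames_of fun x => j3 (p, 1) x⟩⟩
    · have h1 := j3 z x v hv
      rw [(hs z).2.2 x hx] at h1
      exact h1
    · rw [← h0 p]
      exact j3 (p, 0) x
    · rw [← hq q hqQ t]
      exact j3 (q, t) x
  · rintro ⟨J, U, hU, hAU, hJ, hσt, ht0, htQ, hw⟩
    obtain ⟨N, r, hN, hQN, hrc, hrQ, hrid⟩ := hr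
    obtain ⟨U₀, hU₀, hAU₀, hτf, hτQ⟩ := hτ
    obtain ⟨V₁, hV₁, hAV₁, hVU⟩ := normal_exists_closure_subset hA (hU.inter hU₀)
      (subset_inter hAU hAU₀)
    have hLU : closure V₁ ⊆ U := fun x hx => (hVU hx).1
    have hLU₀ : closure V₁ ⊆ U₀ := fun x hx => (hVU hx).2
    have hmono : ∀ ζ : Form (ES d) X 2, CohomologousRel U₀ ζ σ →
        CohomologousRel (closure V₁) ζ σ := by
      rintro ζ ⟨s1, s2, α, ρ, a1, a2, a3, a4, a5⟩
      exact ⟨s1, s2, α, ρ, a1, a2, a3, a4, fun x hx => a5 x (hLU₀ hx)⟩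
    have hJf : Pool.Agent.Q130.SF.JFam (d := d) (X := X) J := by
      intro x₀
      rw [continuousOn_clm_apply]
      exact fun v => hJ.cont x₀ v
    have hJ1 : Pool.Agent.Q130.SF.JFam (d := d) (X := X) (fun p : P => J (p, 1)) := by
      intro x₀
      have h1 := hJf x₀
      have h2 : ContinuousOn (fun q : P × Pool.Agent.Y501.SY.E d =>
          (((q.1, 1) : P × unitInterval), q.2)) (univ ×ˢ
            (chartAt (Pool.Agent.Y501.SY.E d) x₀).target) := by fun_prop
      exact h1.comp h2 fun q hq => ⟨mem_univ _, hq.2⟩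
    have hex : ∀ p, ∃ w : Form (ES d) X 2, p ∉ Q → CohomologousRel (closure V₁) w σ ∧
        ∀ x, TamesAt w (J (p, 1)) x := by
      intro p
      by_cases hp : p ∈ Q
      · exact ⟨σ, fun h => absurd hp h⟩
      · obtain ⟨ζ, hζ, hζw⟩ := hw p hp
        obtain ⟨w, w1, w2⟩ := single (hac J hJ (p, 1)) isClosed_closure hLU (hσt (p, 1)) hζ hζw
        exact ⟨w, fun _ => ⟨w1, w2⟩⟩
    choose w hw' using hex
    have hcf : Pool.Agent.Q130.SF.CFam (d := d) (X := X) univ τ := (cfam_iff τ).1 hτf.1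
    obtain ⟨Ω, κ, k1, k2, -, k3, k4, k5⟩ := Pool.Agent.Q130.SF.extendS (d := d) (X := X) hQ hN hQN
      hrc hrQ hrid hJ1 (η := τ) (w := w)
      (fun U φ hU hφ j => (hcf U φ hU hφ j).mono (prod_mono (subset_univ _) subset_rfl))
      (fun q hq => (hτf.2 q).1) (fun q hq x => htQ q hq 1 x) (fun p hp => (hw' p hp).1.1)
      (fun p hp => (hw' p hp).2) (fun _ => 0)
    have hC := k5 {z | z.1 ∈ {w : Form (ES d) X 2 | CohomologousRel (closure V₁) w σ}}
      ((convex_rel (closure V₁) σ).linear_preimage (LinearMap.fst ℝ (Form (ES d) X 2) ℝ))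
      (fun q hq => hmono _ (hτQ q hq)) (fun p hp => (hw' p hp).1)
    have eB : ∀ p, ∀ x ∈ closure V₁, Ω p x = σ x := by
      intro p x hx
      obtain ⟨s1, s2, α, ρ, a1, a2, a3, a4, a5⟩ := hC p
      have a4' : Ω p = addF σ ρ := a4
      rw [a4']
      show σ x + ρ x = σ x
      rw [(a5 x hx).2, add_zero]
    obtain ⟨T, t1, t2, t3, t4, t5, t6, t7⟩ := Pool.Agent.Q130.SF.homotopyRel (d := d) (X := X)
      Pool.Agent.Y484.SY.t_GEN Pool.Agent.Y455.SY.t_PERT Pool.Agent.Y363.SY.t_LOCAL hQ hJf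
      (fun z => ac_of _ (hac J hJ z)) (A := τ) (B := Ω) hcf k2
      (fun p => (smooth_iff _).1 (hτf.2 p).1) (fun p => (smooth_iff _).1 (hC p).1)
      (fun q hq => (k1 q hq).1) ht0 k4 htQ (σ := σ) ((smooth_iff σ).1 hσ)
      (L := closure V₁) isClosed_closure hU hLU hσt
      (fun p x hx => (hτf.2 p).2.2 x (hLU₀ hx)) eB
    refine ⟨T, V₁, hV₁, hAV₁, ⟨(cfam_iff T).2 t1, fun z => ⟨(smooth_iff _).2 (t2 z),
      fun x v hv => ?_, fun x hx => t7 z x (subset_closure hx)⟩⟩, t4, t6, fun p => ?_⟩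
    · by_contra h
      exact (t3 z x v h).ne' (hv (J z x v))
    · obtain ⟨s1, s2, α, ρ, a1, a2, a3, a4, a5⟩ := hC p
      rw [t5 p]
      exact ⟨s1, s2, α, ρ, a1, a2, a3, a4, fun x hx => a5 x (subset_closure hx)⟩

end Pool.Agent.Results.MP_bf98aa_gt.RelativeCriterion
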